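import Pool.Agent.Y444.NB.Main
import Pool.Agent.W684.FM.Ambient

/-!
# `MP_d4a483_lc`, Q1: yes, under Martin's axiom

It is consistent with ZFC that every separable regular space which has a Noetherian base of
countable rank is metrizable: this follows from Martin's axiom for `ℵ₁` dense sets, and Martin's
axiom for `ℵ₁` dense sets can be forced over every model of set theory. Under this axiom, a
Noetherian base of countable rank of a separable regular space is always countable.

Outline of the proof. Let `ℬ` be an uncountable Noetherian base of countable rank of a separable
regular space `X`. (a) If `V_α` (`α < ω₁`) are members of `ℬ` such that `V_α` is not contained in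
the closure of `V_β` for `α < β`, then the preordered set of the finite incomparable subfamilies
has the countable chain condition, so by Martin's axiom there is an uncountable incomparable
subfamily, a contradiction; it follows that decreasing `ω₁`-sequences of open sets of `X` are
eventually constant. (b) Choosing maximal elements one gets members `V_α` of `ℬ` such that `V_α` is
not contained in `V_β` for `α < β`. The preordered set of the finite incomparable subfamilies of
this family again has the countable chain condition (`ccc_of_stable` in `Pool.Agent.Y444.NB.Comb`,
a theorem of ZFC for families as in (b) in which every uncountable subfamily has two comparable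
members, in spaces as in the conclusion of (a)).

Definitions used in the statement: `Incomparable`, `CountableRank` and `Noetherian` (in
`Pool.Agent.Y444.NB.Main`) are the notions of the problem. `MartinAxiomAleph1` (in
`Pool.Agent.W684.MADef`) is the usual form of Martin's axiom for `ℵ₁` dense sets; `MartinFor Om1`
is an equivalent form for preorders with underlying set `ω₁`, and `MartinHolds P Om1` is its
literal translation into the forcing language of `Pool.Agent.Helper669.Forcing`, in which a
sentence is represented by the set of the conditions which force it.
-/

set_option autoImplicit false

namespace Pool.Agent.Results.MP_d4a483_lc.MartinMetrizable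

open Cardinal Topology TopologicalSpace
open Pool.Agent.Y444.NB Pool.Agent.W684 Pool.Agent.W684.FM Pool.Agent.Helper669.Forcing

universe u

/-- (1) There is a notion of forcing all of whose conditions force that cardinals are preserved and
that Martin's axiom for `ℵ₁` dense sets holds (in the form `MartinFor Om1`, which is equivalent to
the usual one). (2) Martin's axiom for `ℵ₁` dense sets implies that every separable regular (`T₁`)
space which has a Noetherian base of countable rank is metrizable, and that every such base is
countable. -/
theorem result :
    ((∃ (P : Type) (_ : Preorder P), Nonempty P ∧ ∀ p : P,
        p ∈ CardinalsPreserved.{0, 0} P ∧ p ∈ OmegaOnePreserved P ∧ p ∈ MartinHolds P Om1) ∧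
      (MartinFor Om1 ↔ MartinAxiomAleph1)) ∧
    (MartinAxiomAleph1 →
      ∀ (X : Type u) [TopologicalSpace X] [T3Space X] [SeparableSpace X] (ℬ : Set (Set X)),
        IsTopologicalBasis ℬ → Noetherian ℬ → CountableRank ℬ →
          MetrizableSpace X ∧ ℬ.Countable) := by
  refine ⟨⟨exists_forcing Om1, martinFor_om1_iff⟩, fun hMA X _ _ _ ℬ hB hN hR => ?_⟩
  have hc : ℬ.Countable := countable_base hMA hB hN hR
  have hs : SecondCountableTopology X := hB.secondCountableTopology hc
  exact ⟨metrizableSpace_of_t3_secondCountable X, hc⟩

end Pool.Agent.Results.MP_d4a483_lc.MartinMetrizable
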